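import Pool.Agent.Q279.Col.Three

/-!
# Q2 of MP_26251e_nt is false

`S p m n` (file `Pool.Agent.Q279.Col.Defs`) is the coefficient `d_m(n)` of `x ^ n` in the power
series `(1 - x)^{-m} ∏_{j ≥ 0} (1 - x^{p^j})^{-m (p - 1)}` over `ℤ` (the infinite product converges
coefficientwise, see `Q279.Col.multipliable_pow`; its inverse is characterised by
`Q279.Col.den_mul_H`).  `emultiplicity p N` is `ν_p(N)`, with value `⊤` at `N = 0`.
-/

set_option autoImplicit false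

namespace Pool.Agent.Results.MP_26251e_nt.NoEquality

open Q279.Col

/-- The bound `ν_p(n) + 4 - [p = 3]` of Q2. -/
def bound (p n : ℕ) : ℕ := padicValNat p n + 4 - (if p = 3 then 1 else 0)

/-- The statement of Q2. -/
def Q2 : Prop :=
  ∀ p m : ℕ, p.Prime → 3 ≤ p → 1 ≤ m → m % p = p - 1 →
    (∀ n : ℕ, 1 ≤ n → (bound p n : ℕ∞) ≤ emultiplicity (p : ℤ) (S p m (p ^ 2 * n) - S p m n)) ∧
    {n : ℕ | 1 ≤ n ∧
      emultiplicity (p : ℤ) (S p m (p ^ 2 * n) - S p m n) = (bound p n : ℕ∞)}.Infinite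

/-- For `p = 3` and `m = 8` (so `m ≡ -1 mod 3`), `3 ^ (ν₃(n) + 4)` divides `d_8(9n) - d_8(n)` for
every `n`, so the bound `ν₃(n) + 3` of Q2 is strict for every `n ≥ 1`, and Q2 is false. -/
theorem result :
    (∀ n : ℕ, (3 : ℤ) ^ (padicValNat 3 n + 4) ∣ S 3 8 (3 ^ 2 * n) - S 3 8 n) ∧
    (∀ n : ℕ, 1 ≤ n →
      (bound 3 n : ℕ∞) < emultiplicity (3 : ℤ) (S 3 8 (3 ^ 2 * n) - S 3 8 n)) ∧
    ¬ Q2 := by
  have h2 : ∀ n : ℕ, 1 ≤ n →
      (bound 3 n : ℕ∞) < emultiplicity (3 : ℤ) (S 3 8 (3 ^ 2 * n) - S 3 8 n) := by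
    intro n _
    have h3 := le_emultiplicity_of_pow_dvd (Three.dvd_eight n)
    refine lt_of_lt_of_le ?_ h3
    unfold bound
    rw [if_pos rfl]
    exact_mod_cast (by omega)
  refine ⟨Three.dvd_eight, h2, fun hQ => ?_⟩
  obtain ⟨_, h4⟩ := hQ 3 8 Nat.prime_three le_rfl (by norm_num) (by norm_num)
  obtain ⟨n, hn, he⟩ := h4.nonempty
  exact absurd he.symm (h2 n hn).ne

end Pool.Agent.Results.MP_26251e_nt.NoEquality
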