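import Pool.Agent.Q279.Col.WolU

/-!
# Q1 of MP_26251e_nt is false

`S p m n` (file `Pool.Agent.Q279.Col.Defs`) is the coefficient `d_m(n)` of `x ^ n` in the power
series `(1 - x)^{-m} ∏_{j ≥ 0} (1 - x^{p^j})^{-m (p - 1)}` over `ℤ` (the infinite product converges
coefficientwise, see `Q279.Col.multipliable_pow`; its inverse is characterised by
`Q279.Col.den_mul_H`).  `emultiplicity p N` is `ν_p(N)`, with value `⊤` at `N = 0`.
-/

set_option autoImplicit false

namespace Pool.Agent.Results.MP_26251e_nt.WolstenholmeFails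

open Q279.Col

/-- The statement of Q1. -/
def Q1 : Prop :=
  ∀ p m n : ℕ, p.Prime → 3 ≤ p → 1 ≤ m → m % p ≠ p - 1 → 1 ≤ n →
    emultiplicity (p : ℤ) (S p m (p ^ 2 * n) - S p m n) =
      ((padicValNat p n + 2 * padicValNat p m + 3 - (if p = 3 then 1 else 0) : ℕ) : ℕ∞)

/-- For the Wolstenholme prime `p = 16843` and `m = 1`, `p ^ 4` divides `d_1(p² n) - d_1(n)` for
every `n`; in particular the formula of Q1 fails for `p = 16843`, `m = 1` and every `n ≥ 1` prime
to `p`, and Q1 is false. -/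
theorem result :
    (∀ n : ℕ, (16843 : ℤ) ^ 4 ∣ S 16843 1 (16843 ^ 2 * n) - S 16843 1 n) ∧
    (∀ n : ℕ, 1 ≤ n → ¬ 16843 ∣ n →
      emultiplicity (16843 : ℤ) (S 16843 1 (16843 ^ 2 * n) - S 16843 1 n) ≠
        ((padicValNat 16843 n + 2 * padicValNat 16843 1 + 3 : ℕ) : ℕ∞)) ∧
    ¬ Q1 := by
  have h1 := Wol.dvd_16843
  have h2 : ∀ n : ℕ, 1 ≤ n → ¬ 16843 ∣ n →
      emultiplicity (16843 : ℤ) (S 16843 1 (16843 ^ 2 * n) - S 16843 1 n) ≠
        ((padicValNat 16843 n + 2 * padicValNat 16843 1 + 3 : ℕ) : ℕ∞) := by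
    intro n _ hn he
    have h3 := le_emultiplicity_of_pow_dvd (h1 n)
    rw [he, padicValNat.eq_zero_of_not_dvd hn, padicValNat.one] at h3
    exact absurd h3 (by norm_num)
  refine ⟨h1, h2, fun hQ => ?_⟩
  have h4 := hQ 16843 1 1 Wol.prime_16843 (by norm_num) le_rfl (by norm_num) le_rfl
  exact h2 1 le_rfl (by norm_num) (by simpa using h4)

end Pool.Agent.Results.MP_26251e_nt.WolstenholmeFails
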